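import Pool.Agent.Lib.helper4.CXPsp
import Pool.Agent.Lib.helper4.CXPspM

set_option autoImplicit false

namespace Pool.Agent.Results.MP_76b05e_lc.Full

open Pool.Agent.Lib.CX

/-- The state reached from `q` by the word `w`; row `q` of the table lists the images of `q`. -/
def run (δ : List (List ℕ)) (w : List ℕ) (q : ℕ) : ℕ := w.foldl (fun q x => (δ.getD q []).getD x 0) q

/-- A complete DFA (alphabet size in unary, transition table) and a set of `k` states. -/
def Valid (k : ℕ) (a : List Unit × List (List ℕ) × List ℕ) : Prop :=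
  (∀ r ∈ a.2.1, r.length = a.1.length ∧ ∀ q ∈ r, q < a.2.1.length) ∧
    a.2.2.Nodup ∧ a.2.2.length = k ∧ ∀ p ∈ a.2.2, p < a.2.1.length

/-- The set `P` is the image of the whole state set under some word. -/
def Reachable (m : ℕ) (δ : List (List ℕ)) (P : List ℕ) : Prop :=
  ∃ w : List ℕ, (∀ x ∈ w, x < m) ∧ ∀ p, p ∈ P ↔ ∃ q < δ.length, run δ w q = p

abbrev D := (List ℕ × List ℕ) × List ℕ × List ℕ

def row (a : D) (q : ℕ) : List ℕ :=
  if q < a.1.1.length then [a.1.1.getD q 0, a.1.2.getD q 0, if q ∈ a.2.1 then q else a.1.1.length + 4,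
    if q ∈ a.2.2 then a.1.1.length + 4 else a.1.1.length + 3]
  else if q = a.1.1.length then [q + 4, q + 4, q + 1, q + 4]
  else if q = a.1.1.length + 1 then [q, q, q + 3, q + 1]
  else if q = a.1.1.length + 2 then [q + 2, q + 2, q + 2, q + 2]
  else if q = a.1.1.length + 3 then [q, q, q + 1, q] else [q, q, q, q]

def red (k : ℕ) (a : D) : List Unit × List (List ℕ) × List ℕ :=
  ([(), (), (), ()], (List.range (a.1.1.length + 3 + k)).map (row a),
    (a.1.1.length + 2) :: (List.range (k - 1)).map (a.1.1.length + 4 + ·))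

variable {k : ℕ} {a : D}

lemma tab_lt (h : DWF a) {q : ℕ} (hq : q < a.1.1.length) :
    a.1.1.getD q 0 < a.1.1.length ∧ a.1.2.getD q 0 < a.1.1.length := by
  have := h.1
  constructor <;> apply h.2 <;> simp [*]

lemma valid (hk : 2 ≤ k) (h : DWF a) : Valid k (red k a) := by
  refine ⟨List.forall_mem_map.2 fun q hq => ?_, List.nodup_cons.2 ⟨by simp; omega,
    List.nodup_range.map fun _ _ => by simp⟩, by simp [red]; omega, ?_⟩
  · have := @tab_lt a h q
    simp only [red, List.mem_range, List.length_map, List.length_range] at hq ⊢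
    unfold row
    split_ifs <;> simp only [List.forall_mem_cons, List.length_cons, List.length_nil, List.not_mem_nil,
      false_imp_iff, implies_true, and_true, true_and] <;> omega
  · simp only [red, List.forall_mem_cons, List.forall_mem_map, List.mem_range, List.length_map,
      List.length_range]
    exact ⟨by omega, fun _ _ => by omega⟩

lemma spec (hk : 2 ≤ k) (h : DWF a) : Into a ↔ Reachable 4 (red k a).2.1 (red k a).2.2 := by
  obtain ⟨n, hn⟩ : ∃ n, n = a.1.1.length := ⟨_, rfl⟩
  obtain ⟨t, ht⟩ : ∃ t : ℕ → ℕ → ℕ, ∀ q x, t q x = ((red k a).2.1.getD q []).getD x 0 := ⟨_, fun _ _ => rfl⟩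
  have r : ∀ w q, run (red k a).2.1 w q = w.foldl t q := fun w q => by simp only [run, ← ht]
  have e : ∀ q < n + 3 + k, ∀ x, t q x = (row a q).getD x 0 := fun q hq x => by simp [ht, red, ← hn, hq]
  have t0 : ∀ q < n, t q 0 = a.1.1.getD q 0 ∧ t q 1 = a.1.2.getD q 0 ∧
      t q 2 = (if q ∈ a.2.1 then q else n + 4) ∧ t q 3 = if q ∈ a.2.2 then n + 4 else n + 3 :=
    fun q hq => by simp [e q (by omega), row, ← hn, hq]
  have t1 : ∀ x < 4, t n x = (if x = 2 then n + 1 else n + 4) ∧
      t (n + 1) x = (if x = 2 then n + 4 else if x = 3 then n + 2 else n + 1) ∧ t (n + 2) x = n + 4 ∧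
      t (n + 3) x = (if x = 2 then n + 4 else n + 3) ∧ ∀ q, n + 4 ≤ q → q < n + 3 + k → t q x = q :=
    fun x hx => by
      rw [e n (by omega), e (n + 1) (by omega), e (n + 2) (by omega), e (n + 3) (by omega)]
      refine ⟨?_, ?_, ?_, ?_, fun q h1 h2 => ?_⟩
      on_goal 5 => rw [e q h2, row, if_neg (by omega), if_neg (by omega), if_neg (by omega),
        if_neg (by omega), if_neg (by omega)]
      all_goals interval_cases x <;> simp [row, ← hn]
  have c0 : ∀ (u : List Bool), ∀ q < n, (u.map Bool.toNat).foldl t q = drun a.1 u q ∧ drun a.1 u q < n :=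
    fun u => by
      induction u with
      | nil => exact fun q hq => ⟨rfl, hq⟩
      | cons b u ih =>
        intro q hq
        have := tab_lt h (hn ▸ hq)
        cases b
        · have e := ih _ (hn ▸ this.1)
          nth_rewrite 1 [← (t0 q hq).1] at e
          exact e
        · have e := ih _ (hn ▸ this.2)
          nth_rewrite 1 [← (t0 q hq).2.1] at e
          exact e
  have c1 : ∀ (u : List Bool) q, n + 3 ≤ q ∨ q = n + 1 → q < n + 3 + k → (u.map Bool.toNat).foldl t q = q :=
    fun u q h1 h2 => by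
      induction u with
      | nil => rfl
      | cons b u ih =>
        have hb : b.toNat < 2 := by cases b <;> simp
        obtain ⟨-, e1, -, e3, e4⟩ := t1 b.toNat (by omega)
        have h3 : t q b.toNat = q := by
          obtain rfl | rfl | h3 : q = n + 1 ∨ q = n + 3 ∨ n + 4 ≤ q := by omega
          exacts [by rw [e1, if_neg (by omega), if_neg (by omega)], by rw [e3, if_neg (by omega)], e4 q h3 h2]
        simpa [h3] using ih
  have c2 : ∀ w : List ℕ, (∀ x ∈ w, x < 4) → ∀ q, q < n ∨ n + 3 ≤ q → q < n + 3 + k →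
      w.foldl t q ≠ n + 2 := fun w => by
    induction w with
    | nil => exact fun _ q _ _ => by simp; omega
    | cons x w ih =>
      intro hw q h1 h2
      obtain ⟨hx, hw⟩ := List.forall_mem_cons.1 hw
      obtain ⟨-, -, -, e3, e4⟩ := t1 x hx
      suffices (t q x < n ∨ n + 3 ≤ t q x) ∧ t q x < n + 3 + k from ih hw (t q x) this.1 this.2
      obtain h3 | rfl | h3 : q < n ∨ q = n + 3 ∨ n + 4 ≤ q := by omega
      · obtain ⟨f0, f1, f2, f3⟩ := t0 q h3
        have := tab_lt h (hn ▸ h3)
        interval_cases x <;> simp only [f0, f1, f2, f3] <;> (try split_ifs) <;> omega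
      · rw [e3]; split_ifs <;> omega
      · rw [e4 q h3 h2]; omega
  have c3 : ∀ w : List ℕ, (∀ x ∈ w, x < 4) → w.foldl t (n + 1) = n + 2 →
      ∃ u : List Bool, w = u.map Bool.toNat ++ [3] := fun w => by
    induction w with
    | nil => simp
    | cons x w ih =>
      intro hw h1
      obtain ⟨hx, hw⟩ := List.forall_mem_cons.1 hw
      rw [List.foldl_cons, (t1 x hx).2.1] at h1
      split_ifs at h1 with h2 h3
      · exact absurd h1 (c2 w hw _ (by omega) (by omega))
      · rcases w with _ | ⟨y, w⟩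
        · exact ⟨[], by simp [h3]⟩
        · obtain ⟨hy, hw⟩ := List.forall_mem_cons.1 hw
          rw [List.foldl_cons, (t1 y hy).2.2.1] at h1
          exact absurd h1 (c2 w hw _ (by omega) (by omega))
      · obtain ⟨u, rfl⟩ := ih hw h1
        exact ⟨decide (x = 1) :: u, by interval_cases x <;> simp_all⟩
  have hP : ∀ p, p ∈ (red k a).2.2 ↔ p = n + 2 ∨ (n + 4 ≤ p ∧ p < n + 3 + k) := fun p => by
    simp only [red, List.mem_cons, List.mem_map, List.mem_range, ← hn]
    exact or_congr_right ⟨by omega, fun h => ⟨p - (n + 4), by omega⟩⟩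
  have hS : ∀ q ∈ a.2.1, q < n := fun q hq => hn ▸ h.2 q (by simp [hq])
  have b2 := t1 2 (by omega)
  have b3 := t1 3 (by omega)
  simp only [Reachable, r, hP, show (red k a).2.1.length = n + 3 + k by simp [red, hn]]
  constructor
  · rintro ⟨u, hu⟩
    have f : ∀ q, n + 4 ≤ q → q < n + 3 + k → t ((u.map Bool.toNat).foldl t q) 3 = q := fun q h1 h2 => by
      rw [c1 u q (by omega) h2, b3.2.2.2.2 q h1 h2]
    refine ⟨2 :: (u.map Bool.toNat ++ [3]), List.forall_mem_cons.2 ⟨by omega,
      List.forall_mem_append.2 ⟨List.forall_mem_map.2 fun b _ => by cases b <;> simp, by simp⟩⟩, fun p => ?_⟩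
    simp only [List.foldl_cons, List.foldl_append, List.foldl_nil]
    have g : t ((u.map Bool.toNat).foldl t (t n 2)) 3 = n + 2 := by
      rw [b2.1, if_pos rfl, c1 u _ (by omega) (by omega), b3.2.1]; simp
    constructor
    · rintro (rfl | ⟨h1, h2⟩)
      exacts [⟨n, by omega, g⟩, ⟨p, h2, by rw [b2.2.2.2.2 p h1 h2, f p h1 h2]⟩]
    · rintro ⟨q, hq, rfl⟩
      have f4 := f (n + 4) le_rfl (by omega)
      by_cases h1 : q < n
      · by_cases h2 : q ∈ a.2.1
        · rw [(t0 q h1).2.2.1, if_pos h2, (c0 u q h1).1, (t0 _ (c0 u q h1).2).2.2.2, if_pos (hu q h2)]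
          omega
        · rw [(t0 q h1).2.2.1, if_neg h2, f4]
          omega
      · obtain rfl | rfl | rfl | rfl | h2 : q = n ∨ q = n + 1 ∨ q = n + 2 ∨ q = n + 3 ∨ n + 4 ≤ q := by omega
        · exact .inl g
        · rw [b2.2.1, if_pos rfl, f4]; omega
        · rw [b2.2.2.1, f4]; omega
        · rw [b2.2.2.2.1, if_pos rfl, f4]; omega
        · rw [b2.2.2.2.2 q h2 hq, f q h2 hq]; omega
  · rintro ⟨w, hw, h1⟩
    obtain ⟨q, hq, h2⟩ := (h1 _).1 (.inl rfl)
    have hd := (h1 _).2 ⟨n + 3, by omega, rfl⟩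
    rcases w with _ | ⟨x, w⟩
    · simp at hd
    obtain ⟨hx, hw'⟩ := List.forall_mem_cons.1 hw
    have := t1 x hx
    obtain h3 | rfl | rfl | rfl : (q < n ∨ n + 3 ≤ q) ∨ q = n ∨ q = n + 1 ∨ q = n + 2 := by omega
    · exact absurd h2 (c2 _ hw q h3 hq)
    · rw [List.foldl_cons, this.1] at h2
      split_ifs at h2 with h3
      · obtain ⟨u, rfl⟩ := c3 w hw' h2
        refine ⟨u, fun s hs => by_contra fun h4 => ?_⟩
        have := (h1 _).2 ⟨s, by have := hS s hs; omega, rfl⟩
        simp only [List.foldl_cons, List.foldl_append, List.foldl_nil, h3, (t0 s (hS s hs)).2.2.1, hs, if_true,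
          (c0 u s (hS s hs)).1, (t0 _ (c0 u s (hS s hs)).2).2.2.2, h4, if_false] at this
        omega
      · exact absurd h2 (c2 _ hw' _ (by omega) (by omega))
    · obtain ⟨u, e⟩ := c3 _ hw h2
      rw [e, List.foldl_append, c1 u _ (by omega) (by omega), List.foldl_cons, List.foldl_nil, b3.2.2.2.1] at hd
      simp at hd
    · rw [List.foldl_cons, this.2.2.1] at h2
      exact absurd h2 (c2 _ hw' _ (by omega) (by omega))

lemma psp : InPSPACE fun a : List Unit × List (List ℕ) × List ℕ => Reachable a.1.length a.2.1 a.2.2 := by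
  refine (InPSPACE.of_reach
    (fun a (s t : List ℕ) => ∃ x < a.1.length, t = s.map fun q => (a.2.1.getD q []).getD x 0)
    (fun a t => (∀ p ∈ a.2.2, p ∈ t) ∧ ∀ p ∈ t, p ∈ a.2.2) (fun a => List.range a.2.1.length)
    (fun a => a.2.1.length * (3 * a.2.1.length + 2 + size a.2.1 + 1) + 2) (by fun_prop) (by fun_prop)
    (by fun_prop) (by fun_prop) fun a t h => ?_).of_iff fun ⟨u, δ, P⟩ => ?_
  · suffices t.length = a.2.1.length ∧ ∀ q ∈ t, size q ≤ 3 * a.2.1.length + 2 + size a.2.1 from
      (size_list_le this.2).trans (by rw [this.1])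
    induction h with
    | refl => exact ⟨by simp, fun q hq => (size_nat_le q).trans (by simp at hq; omega)⟩
    | tail _ h ih =>
      obtain ⟨x, -, rfl⟩ := h
      refine ⟨by simpa using ih.1, List.forall_mem_map.2 fun q _ => ?_⟩
      by_cases h1 : q < a.2.1.length
      · by_cases h2 : x < a.2.1[q].length
        · have := (size_mem (List.getElem_mem h2)).trans (size_mem (List.getElem_mem h1))
          simp only [List.getD_eq_getElem?_getD, List.getElem?_eq_getElem, h1, h2, Option.getD_some]
          omega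
        · simp [h1, h2, show size (0 : ℕ) = 2 from rfl]; omega
      · simp [h1, show size (0 : ℕ) = 2 from rfl]; omega
  · have : ∀ t, Relation.ReflTransGen (fun s t : List ℕ => ∃ x < u.length, t = s.map fun q =>
        (δ.getD q []).getD x 0) (List.range δ.length) t ↔
        ∃ w : List ℕ, (∀ x ∈ w, x < u.length) ∧ t = (List.range δ.length).map (run δ w) := fun t => by
      constructor
      · intro h
        induction h with
        | refl => exact ⟨[], by simp, by simp [show run δ [] = id from rfl]⟩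
        | tail _ h ih =>
          obtain ⟨w, h1, rfl⟩ := ih
          obtain ⟨x, h2, rfl⟩ := h
          exact ⟨w ++ [x], by simpa [or_imp, forall_and] using ⟨h1, h2⟩, by simp [run]⟩
      · rintro ⟨w, h, rfl⟩
        induction w using List.reverseRecOn with
        | nil => rw [show run δ [] = id from rfl, List.map_id]
        | append_singleton w x ih =>
          simp only [List.forall_mem_append, List.forall_mem_singleton] at h
          exact (ih h.1).tail ⟨x, h.2, by simp [run]⟩
    simp only [this, Reachable]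
    constructor
    · rintro ⟨w, h1, h2⟩
      exact ⟨_, ⟨w, h1, rfl⟩, fun p hp => by simpa using (h2 p).1 hp, fun p hp => (h2 p).2 (by simpa using hp)⟩
    · rintro ⟨_, ⟨w, h1, rfl⟩, h2, h3⟩
      exact ⟨w, h1, fun p => ⟨fun hp => by simpa using h2 p hp, fun hp => h3 p (by simpa using hp)⟩⟩

theorem result (k : ℕ) (hk : 2 ≤ k) :
    PSPACEComplete fun a : {a // Valid k a} => Reachable a.1.1.length a.1.2.1 a.1.2.2 := by
  classical
  refine ⟨psp.red ⟨Subtype.val, PT.id.cast fun _ => rfl, fun _ => Iff.rfl⟩, ?_⟩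
  have w : DWF (([], []), [], []) := by simp [DWF]
  have hd : PT fun a : D => if a.1.2.length = a.1.1.length ∧
      ∀ q ∈ a.1.1 ++ a.1.2 ++ a.2.1 ++ a.2.2, q < a.1.1.length then a else (([], []), [], []) := by fun_prop
  refine PSPACEHard.of_into true (fun a => ⟨red k (if a.1.2.length = a.1.1.length ∧
    ∀ q ∈ a.1.1 ++ a.1.2 ++ a.2.1 ++ a.2.2, q < a.1.1.length then a else (([], []), [], [])),
    valid hk (by split_ifs with h; exacts [h, w])⟩)
    (PT.subtype (PT.comp (by unfold red row; fun_prop) hd) _) fun a h => ?_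
  simp only [if_pos (show _ ∧ _ from h), iff_true]
  exact spec hk h

end Pool.Agent.Results.MP_76b05e_lc.Full
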